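import Mathlib
import Pool.Agent.Helper74.LM.Word

namespace Pool.Agent.Results.MP_d2aba3_al.WordTame

open LaurentPolynomial Matrix Pool.Agent.Helper74.LM

/-- Let `A` be a domain. A product `s_0 E_12(f_1) s_1 ⋯ E_12(f_n) s_n`, with `s_i ∈ SL_2(A)`, with
`s_i` not upper triangular for `0 < i < n` and with Laurent polynomials `f_i` having a nonzero
coefficient in some positive degree, lies in `E_2(A[T;T⁻¹])` if and only if all `s_i` lie in
`E_2(A)`. -/
theorem result {A : Type*} [CommRing A] [IsDomain A] (s : SpecialLinearGroup (Fin 2) A)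
    (l : List (A[T;T⁻¹] × SpecialLinearGroup (Fin 2) A))
    (hpos : ∀ p ∈ l, ∃ k : ℤ, 0 < k ∧ p.1.coeff k ≠ 0)
    (hred : ∀ p ∈ l.dropLast, p.2.1 1 0 ≠ 0) :
    word (C : A →+* A[T;T⁻¹]) s l ∈ E2 A[T;T⁻¹] ↔ s ∈ E2 A ∧ ∀ p ∈ l, p.2 ∈ E2 A :=
  word_tame l s hpos hred

end Pool.Agent.Results.MP_d2aba3_al.WordTame
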